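import Pool.Agent.W809.JS.Stm

set_option autoImplicit false

open MeasureTheory Filter Topology Set Metric Real
open Pool.Agent.Results.MP_5c297c_an.NotJessen
open Pool.Agent.W809.JS

namespace Pool.Agent.W579.JS

lemma dfc_eq {M : ℝ} {u : ℂ} (h : u ≠ 0) : dfc M u = dfc0 M u := by
  simp [dfc, dfc0, h]

lemma cpt_update {n : ℕ} (x y : Fin n → ℝ) (i : Fin n) (v : ℝ) :
    cpt (Function.update x i v) y = Function.update (cpt x y) i ((v : ℂ) + (y i : ℂ) * Complex.I) := by
  funext k
  by_cases hk : k = i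
  · subst hk
    simp [cpt]
  · simp [cpt, Function.update_of_ne hk]

lemma update_add_single {n : ℕ} (w : Fin n → ℂ) (i : Fin n) (a b : ℂ) :
    Function.update w i a + b • (Pi.single i 1 : Fin n → ℂ) = Function.update w i (a + b) := by
  funext k
  by_cases hk : k = i
  · subst hk
    simp
  · simp [Function.update_of_ne hk, hk]

lemma yt_sub_le {n : ℕ} {i j : Fin n} (hij : i ≠ j) (p : Fin n → ℝ) {r t : ℝ} (hr : 0 < r)
    (hr4 : r ≤ 1 / 4) (ht : t ∈ Icc 0 (r / 2)) (k : Fin n) :
    |yt p i j t k - p k| ≤ r / 2 := by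
  obtain ⟨ht0, ht1⟩ := ht
  unfold yt
  by_cases h1 : k = i
  · have h2 : k ≠ j := fun h => hij (h1 ▸ h)
    rw [if_pos h1, if_neg h2]
    rw [abs_le]
    constructor <;> nlinarith
  · rw [if_neg h1]
    by_cases h2 : k = j
    · rw [if_pos h2, abs_le]
      constructor <;> linarith
    · rw [if_neg h2, abs_le]
      constructor <;> linarith

lemma yt_i {n : ℕ} {i j : Fin n} (hij : i ≠ j) (p : Fin n → ℝ) (t : ℝ) :
    yt p i j t i = p i + t ^ 2 := by
  unfold yt
  simp [hij]

lemma coord_bounds {n : ℕ} {h p : Fin n → ℝ} {z : Fin n → ℂ} {r : ℝ}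
    (hz : z ∈ closedBall (cpt h p) r) (k : Fin n) :
    |(z k).re - h k| ≤ r ∧ |(z k).im - p k| ≤ r := by
  have h1 : ‖z - cpt h p‖ ≤ r := by
    rw [← dist_eq_norm]
    exact hz
  have h2 : ‖z k - cpt h p k‖ ≤ r := (norm_le_pi_norm (z - cpt h p) k).trans h1
  constructor
  · have h3 := (Complex.abs_re_le_norm (z k - cpt h p k)).trans h2
    simpa [cpt] using h3
  · have h3 := (Complex.abs_im_le_norm (z k - cpt h p k)).trans h2
    simpa [cpt] using h3

lemma update_mem_tube {n : ℕ} {i : Fin n} {x y p : Fin n → ℝ} {R : ℝ} {ζ : ℂ} (hR : 0 < R)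
    (hy : ∀ k, |y k - p k| < R) (hζ : |ζ.im - p i| < R) :
    Function.update (cpt x y) i ζ ∈ tube (ball p R) := by
  show imPart (Function.update (cpt x y) i ζ) ∈ ball p R
  rw [mem_ball, dist_pi_lt_iff hR]
  intro k
  rw [Real.dist_eq]
  by_cases hk : k = i
  · subst hk
    simpa [imPart] using hζ
  · simpa [imPart, Function.update_of_ne hk, cpt] using hy k

lemma analytic_update {n : ℕ} {i : Fin n} {w : Fin n → ℂ} {U : Set (Fin n → ℂ)} (hU : IsOpen U)
    {f : (Fin n → ℂ) → ℂ} (hf : DifferentiableOn ℂ f U) (a : ℂ) :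
    AnalyticOnNhd ℂ (fun ζ : ℂ => f (Function.update w i (a + ζ)))
      {ζ : ℂ | Function.update w i (a + ζ) ∈ U} := by
  have h := line_analytic hU hf (Function.update w i a) (Pi.single i 1 : Fin n → ℂ)
  simpa only [update_add_single] using h

section
variable {n : ℕ} {i j : Fin n} {f : (Fin n → ℂ) → ℂ} {p : Fin n → ℝ} {r M : ℝ}

/-- the pointwise inequality -/
lemma ptwise {C2 : ℝ}
    (HSEG : ∀ (s M : ℝ) (c : ℂ) (G : ℂ → ℂ), 0 < s → 0 ≤ M → Good s M c G →
      ∀ y : ℝ, |y - c.im| ≤ s → ∀ ε : ℝ, 0 < ε → ε ≤ s →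
      ∀ S : Set ℝ, MeasurableSet S → S ⊆ Icc (c.re - s) (c.re + s) →
        ENNReal.ofReal (2 * π) * ∫⁻ x in S, dfc M (G ((x : ℂ) + (y : ℂ) * Complex.I))
          ≤ (∫⁻ x in S, ∫⁻ θ in Ioc 0 (2 * π),
              dfc M (G ((x : ℂ) + (y : ℂ) * Complex.I + circleMap 0 ε θ)))
            + ENNReal.ofReal (C2 * ε) * dfc M (G c))
    (hij : i ≠ j) (hr : 0 < r) (hr4 : r ≤ 1 / 4) (hM : 0 ≤ M) (hf : Hol f p (40 * r) M)
    (h : Fin n → ℝ) (z : Fin n → ℂ) (hz : z ∈ closedBall (cpt h p) r) (ε : ℝ) (hε : 0 < ε)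
    (hεr : ε ≤ r) (A : Set ((Fin n → ℝ) × ℝ)) (hbad : bad f p i j r ε h ⊆ A)
    (t : ℝ) (ht : t ∈ Icc 0 (r / 2)) (x : Fin n → ℝ) (hx : x ∈ closedBall h r) :
    ENNReal.ofReal (2 * π) * ∫⁻ v in Icc (h i - r) (h i + r),
        dfc M (f (cpt (Function.update x i v) (yt p i j t)))
      ≤ (∫⁻ v in Icc (h i - r) (h i + r), ∫⁻ θ in Ioc 0 (2 * π),
          dfc M (f (cpt (Function.update x i v) (yt p i j t) +
            circleMap 0 ε θ • (Pi.single i 1 : Fin n → ℂ))))
        + ENNReal.ofReal (C2 * ε) * (A.indicator (1 : (Fin n → ℝ) × ℝ → ENNReal) (x, t) *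
          dfc M (f (Function.update (cpt x (yt p i j t)) i (z i)))) := by
  obtain ⟨hfm, hfd, hfb⟩ := hf
  set y := yt p i j t with hy
  have hyk : ∀ k, |y k - p k| ≤ r / 2 := yt_sub_le hij p hr hr4 ht
  have hyi : y i = p i + t ^ 2 := yt_i hij p t
  obtain ⟨hre, him⟩ := coord_bounds hz i
  have h40 : 0 < 40 * r := by linarith
  have hU : IsOpen (tube (ball p (40 * r))) := isOpen_tube isOpen_ball
  have hmem : ∀ ζ : ℂ, |ζ.im - p i| < 40 * r →
      Function.update (cpt x y) i ζ ∈ tube (ball p (40 * r)) := fun ζ hζ =>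
    update_mem_tube h40 (fun k => lt_of_le_of_lt (hyk k) (by linarith)) hζ
  simp only [cpt_update, update_add_single]
  by_cases hA : (x, t) ∈ A
  · rw [indicator_of_mem hA, Pi.one_apply, one_mul]
    set G : ℂ → ℂ := fun ζ => f (Function.update (cpt x y) i ζ) with hG
    have hGood : Good (4 * r) M (z i) G := by
      have hin : ∀ ζ ∈ closedBall (z i) (8 * (4 * r)),
          Function.update (cpt x y) i ζ ∈ tube (ball p (40 * r)) := by
        intro ζ hζ
        apply hmem
        have h1 : ‖ζ - z i‖ ≤ 8 * (4 * r) := by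
          rw [← dist_eq_norm]; exact hζ
        have h2 := (Complex.abs_im_le_norm (ζ - z i)).trans h1
        rw [Complex.sub_im] at h2
        have h3 : |ζ.im - p i| ≤ |ζ.im - (z i).im| + |(z i).im - p i| := abs_sub_le _ _ _
        linarith
      refine ⟨?_, ?_, ?_⟩
      · exact hfm.comp (measurable_update (cpt x y))
      · have h1 := analytic_update (i := i) (w := cpt x y) hU hfd 0
        simp only [zero_add] at h1
        exact h1.mono hin
      · intro ζ hζ
        exact hfb _ (hin ζ hζ)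
    have h1 := HSEG (4 * r) M (z i) G (by linarith) hM hGood (y i) (by
      have h2 : |y i - (z i).im| ≤ |y i - p i| + |p i - (z i).im| := abs_sub_le _ _ _
      rw [abs_sub_comm (p i)] at h2
      have h3 := hyk i
      linarith) ε hε (by linarith) (Icc (h i - r) (h i + r)) measurableSet_Icc (by
      rw [abs_le] at hre
      apply Icc_subset_Icc <;> linarith [hre.1, hre.2])
    exact h1
  · rw [indicator_of_notMem hA, zero_mul, mul_zero, add_zero]
    have hnb : ∀ ζ : ℂ, |ζ.re - h i| ≤ 2 * r → |ζ.im - (p i + t ^ 2)| ≤ ε →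
        f (Function.update (cpt x y) i ζ) ≠ 0 := by
      intro ζ h1 h2 h3
      exact hA (hbad ⟨hx, ht, ζ, h1, h2, h3⟩)
    rw [← lintegral_const_mul' _ _ ENNReal.ofReal_ne_top]
    refine setLIntegral_mono' measurableSet_Icc ?_
    intro v hv
    set a : ℂ := (v : ℂ) + (y i : ℂ) * Complex.I with ha
    have hare : a.re = v := by simp [ha]
    have haim : a.im = y i := by simp [ha]
    have hwb : ∀ w ∈ closedBall (0 : ℂ) ε, |w.re| ≤ ε ∧ |w.im| ≤ ε := by
      intro w hw
      rw [mem_closedBall_zero_iff] at hw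
      exact ⟨(Complex.abs_re_le_norm w).trans hw, (Complex.abs_im_le_norm w).trans hw⟩
    have hin : ∀ w ∈ closedBall (0 : ℂ) ε,
        Function.update (cpt x y) i (a + w) ∈ tube (ball p (40 * r)) := by
      intro w hw
      apply hmem
      rw [Complex.add_im, haim]
      have h1 := (hwb w hw).2
      have h2 := hyk i
      have h3 : |y i + w.im - p i| ≤ |y i - p i| + |w.im| := by
        have := abs_add_le (y i - p i) w.im
        rwa [show y i - p i + w.im = y i + w.im - p i by ring] at this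
      linarith
    have hnz : ∀ w ∈ closedBall (0 : ℂ) ε, f (Function.update (cpt x y) i (a + w)) ≠ 0 := by
      intro w hw
      obtain ⟨h1, h2⟩ := hwb w hw
      apply hnb
      · rw [Complex.add_re, hare]
        have h3 : |v + w.re - h i| ≤ |v - h i| + |w.re| := by
          have := abs_add_le (v - h i) w.re
          rwa [show v - h i + w.re = v + w.re - h i by ring] at this
        have h4 : |v - h i| ≤ r := by
          rw [abs_le]
          constructor <;> linarith [hv.1, hv.2]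
        linarith
      · rw [Complex.add_im, haim, hyi]
        rw [show p i + t ^ 2 + w.im - (p i + t ^ 2) = w.im by ring]
        exact h2
    have hg : AnalyticOnNhd ℂ (fun w : ℂ => f (Function.update (cpt x y) i (a + w)))
        (closedBall 0 ε) :=
      (analytic_update (i := i) (w := cpt x y) hU hfd a).mono hin
    have key := harm_lintegral (M := M) hε hg (fun w hw => hfb _ (hin w hw)) hnz
    simp only [add_zero] at key
    have h0 : f (Function.update (cpt x y) i a) ≠ 0 := by
      have := hnz 0 (mem_closedBall_self hε.le)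
      simpa using this
    rw [dfc_eq h0, key]
    refine le_of_eq ?_
    refine lintegral_congr fun θ => ?_
    rw [dfc_eq (hnz _ (circleMap_mem_closedBall 0 hε.le θ))]

/-- integration over `x` for fixed `t` -/
lemma slice {C2 : ℝ} (hC2 : 0 ≤ C2) (HFUB : S_FUB) (hfm : Measurable f) (hr : 0 < r)
    (h : Fin n → ℝ) (z : Fin n → ℂ) {ε : ℝ} (hε : 0 < ε) (A : Set ((Fin n → ℝ) × ℝ))
    (hA : MeasurableSet A) (y : Fin n → ℝ) (t : ℝ)
    (H : ∀ x ∈ closedBall h r, ENNReal.ofReal (2 * π) * ∫⁻ v in Icc (h i - r) (h i + r),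
        dfc M (f (cpt (Function.update x i v) y))
      ≤ (∫⁻ v in Icc (h i - r) (h i + r), ∫⁻ θ in Ioc 0 (2 * π),
          dfc M (f (cpt (Function.update x i v) y +
            circleMap 0 ε θ • (Pi.single i 1 : Fin n → ℂ))))
        + ENNReal.ofReal (C2 * ε) * (A.indicator (1 : (Fin n → ℝ) × ℝ → ENNReal) (x, t) *
          dfc M (f (Function.update (cpt x y) i (z i))))) :
    ENNReal.ofReal (2 * π) * ∫⁻ x in closedBall h r, dfc M (f (cpt x y)) ≤
      (∫⁻ x in closedBall h r, ∫⁻ θ in Ioc 0 (2 * π),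
        dfc M (f (cpt x y + circleMap 0 ε θ • (Pi.single i 1 : Fin n → ℂ))))
      + ENNReal.ofReal (C2 * ε / (2 * r)) * ∫⁻ x in closedBall h r,
        (A.indicator (1 : (Fin n → ℝ) × ℝ → ENNReal) (x, t) *
          dfc M (f (Function.update (cpt x y) i (z i)))) := by
  set F1 : (Fin n → ℝ) → ENNReal := fun x => dfc M (f (cpt x y)) with hF1
  set F2 : (Fin n → ℝ) → ENNReal := fun x => ∫⁻ θ in Ioc 0 (2 * π),
        dfc M (f (cpt x y + circleMap 0 ε θ • (Pi.single i 1 : Fin n → ℂ))) with hF2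
  set F3 : (Fin n → ℝ) → ENNReal := fun x =>
    (A.indicator (1 : (Fin n → ℝ) × ℝ → ENNReal) (x, t) *
          dfc M (f (Function.update (cpt x y) i (z i)))) with hF3
  have hm1 : Measurable F1 := (measurable_dfc M).comp (hfm.comp (measurable_cpt_left y))
  have hm2' : Measurable (fun q : (Fin n → ℝ) × ℝ =>
      dfc M (f (cpt q.1 y + circleMap 0 ε q.2 • (Pi.single i 1 : Fin n → ℂ)))) := by
    refine (measurable_dfc M).comp (hfm.comp ?_)
    have : Continuous (fun q : (Fin n → ℝ) × ℝ =>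
        cpt q.1 y + circleMap 0 ε q.2 • (Pi.single i 1 : Fin n → ℂ)) := by
      unfold cpt circleMap
      fun_prop
    exact this.measurable
  have hm2 : Measurable F2 := hm2'.lintegral_prod_right'
  have hm3 : Measurable F3 := by
    refine Measurable.mul ?_ ?_
    · exact (measurable_one.indicator hA).comp (measurable_id.prodMk measurable_const)
    · refine (measurable_dfc M).comp (hfm.comp ?_)
      have : Continuous (fun x : Fin n → ℝ => Function.update (cpt x y) i (z i)) := by
        refine Continuous.update ?_ i continuous_const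
        unfold cpt
        fun_prop
      exact this.measurable
  have e1 := HFUB n i h r hr F1 hm1
  have e2 := HFUB n i h r hr F2 hm2
  have h2r : ENNReal.ofReal (2 * r) ≠ 0 := by simpa using hr
  have h2r' : ENNReal.ofReal (2 * r) ≠ ⊤ := ENNReal.ofReal_ne_top
  have e3 : ENNReal.ofReal (C2 * ε) =
      ENNReal.ofReal (2 * r) * ENNReal.ofReal (C2 * ε / (2 * r)) := by
    rw [← ENNReal.ofReal_mul (by positivity)]
    congr 1
    field_simp
  have key : ENNReal.ofReal (2 * r) * (ENNReal.ofReal (2 * π) * ∫⁻ x in closedBall h r, F1 x) ≤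
      ENNReal.ofReal (2 * r) * ((∫⁻ x in closedBall h r, F2 x) +
        ENNReal.ofReal (C2 * ε / (2 * r)) * ∫⁻ x in closedBall h r, F3 x) := by
    calc ENNReal.ofReal (2 * r) * (ENNReal.ofReal (2 * π) * ∫⁻ x in closedBall h r, F1 x)
        = ENNReal.ofReal (2 * π) * (ENNReal.ofReal (2 * r) * ∫⁻ x in closedBall h r, F1 x) := by
          ring
      _ = ENNReal.ofReal (2 * π) * ∫⁻ x in closedBall h r,
            ∫⁻ s in Icc (h i - r) (h i + r), F1 (Function.update x i s) := by rw [e1]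
      _ = ∫⁻ x in closedBall h r, ENNReal.ofReal (2 * π) *
            ∫⁻ s in Icc (h i - r) (h i + r), F1 (Function.update x i s) :=
          (lintegral_const_mul' _ _ ENNReal.ofReal_ne_top).symm
      _ ≤ ∫⁻ x in closedBall h r, ((∫⁻ s in Icc (h i - r) (h i + r), F2 (Function.update x i s)) +
            ENNReal.ofReal (C2 * ε) * F3 x) :=
          setLIntegral_mono' measurableSet_closedBall H
      _ = (∫⁻ x in closedBall h r, ∫⁻ s in Icc (h i - r) (h i + r), F2 (Function.update x i s)) +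
            ENNReal.ofReal (C2 * ε) * ∫⁻ x in closedBall h r, F3 x := by
          rw [lintegral_add_right _ (hm3.const_mul _),
            lintegral_const_mul' _ _ ENNReal.ofReal_ne_top]
      _ = ENNReal.ofReal (2 * r) * ((∫⁻ x in closedBall h r, F2 x) +
        ENNReal.ofReal (C2 * ε / (2 * r)) * ∫⁻ x in closedBall h r, F3 x) := by
          rw [e2, e3]
          ring
  exact (ENNReal.mul_le_mul_iff_right h2r h2r').1 key

/-- Cauchy-Schwarz on the product -/
lemma cs (h : Fin n → ℝ) (A : Set ((Fin n → ℝ) × ℝ)) (hA : MeasurableSet A) (K : ENNReal)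
    (T : Set ℝ) (hT : MeasurableSet T) (hTvol : volume T ≤ 1)
    (g : (Fin n → ℝ) × ℝ → ENNReal) (hg : Measurable g)
    (hK : ∀ t ∈ T, ∫⁻ x in closedBall h r, (g (x, t)) ^ 2 ≤ K ^ 2) :
    ∫⁻ t in T, ∫⁻ x in closedBall h r,
      (A.indicator (1 : (Fin n → ℝ) × ℝ → ENNReal) (x, t) * g (x, t)) ≤
        (volume A) ^ (1 / 2 : ℝ) * K := by
  set ν := ((volume : Measure (Fin n → ℝ)).restrict (closedBall h r)).prod
    ((volume : Measure ℝ).restrict T) with hν
  have hm : Measurable (A.indicator (1 : (Fin n → ℝ) × ℝ → ENNReal)) := measurable_one.indicator hA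
  have e1 : ∫⁻ t in T, ∫⁻ x in closedBall h r,
      (A.indicator (1 : (Fin n → ℝ) × ℝ → ENNReal) (x, t) * g (x, t)) =
      ∫⁻ q, (A.indicator (1 : (Fin n → ℝ) × ℝ → ENNReal) * g) q ∂ν := by
    rw [hν, lintegral_prod_symm _ (hm.mul hg).aemeasurable]
    rfl
  rw [e1]
  have hconj : (2 : ℝ).HolderConjugate 2 := by
    rw [Real.holderConjugate_iff]
    norm_num
  refine (ENNReal.lintegral_mul_le_Lp_mul_Lq ν hconj hm.aemeasurable hg.aemeasurable).trans ?_
  refine mul_le_mul' ?_ ?_
  · refine ENNReal.rpow_le_rpow ?_ (by norm_num)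
    have e2 : ∀ q, (A.indicator (1 : (Fin n → ℝ) × ℝ → ENNReal) q) ^ (2 : ℝ) =
        A.indicator (1 : (Fin n → ℝ) × ℝ → ENNReal) q := by
      intro q
      by_cases hq : q ∈ A
      · rw [indicator_of_mem hq]; simp
      · rw [indicator_of_notMem hq]; simp
    simp only [e2]
    rw [lintegral_indicator_one hA, hν, Measure.prod_restrict]
    exact Measure.restrict_apply_le _ _
  · have e3 : ∫⁻ q, (g q) ^ (2 : ℝ) ∂ν ≤ K ^ 2 := by
      have e4 : ∀ q, (g q) ^ (2 : ℝ) = (g q) ^ 2 := fun q => by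
        rw [← ENNReal.rpow_natCast]; norm_num
      simp only [e4]
      rw [hν, lintegral_prod_symm _ (hg.pow_const 2).aemeasurable]
      calc ∫⁻ t in T, ∫⁻ x in closedBall h r, (g (x, t)) ^ 2
          ≤ ∫⁻ _ in T, K ^ 2 := setLIntegral_mono' hT hK
        _ = K ^ 2 * volume T := by rw [lintegral_const, Measure.restrict_apply_univ]
        _ ≤ K ^ 2 * 1 := by gcongr
        _ = K ^ 2 := mul_one _
    calc (∫⁻ q, (g q) ^ (2 : ℝ) ∂ν) ^ (1 / 2 : ℝ) ≤ (K ^ 2) ^ (1 / 2 : ℝ) :=
          ENNReal.rpow_le_rpow e3 (by norm_num)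
      _ = K := by
          rw [← ENNReal.rpow_natCast, ← ENNReal.rpow_mul]
          norm_num

end

lemma continuous_yt {n : ℕ} (p : Fin n → ℝ) (i j : Fin n) : Continuous (yt p i j) := by
  refine continuous_pi fun k => ?_
  unfold yt
  split_ifs <;> fun_prop

theorem loc : S_ITER → S_SEG → S_FUB → S_LOC := by
  rintro ⟨C1, hC1, HIT⟩ ⟨C2, hC2, HSEG⟩ HFUB n
  have hC1n : 1 ≤ C1 ^ n := one_le_pow₀ hC1
  refine ⟨C2 * C1 ^ n, by positivity, ?_⟩
  intro i j hij f p r M hr hr4 hM hf h z hz ε hε hεr A hA hbad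
  obtain ⟨hfm, hfd, hfb⟩ := id hf
  have h40 : 0 < 40 * r := by linarith
  set g : (Fin n → ℝ) × ℝ → ENNReal := fun q =>
    dfc M (f (Function.update (cpt q.1 (yt p i j q.2)) i (z i))) with hgdef
  have hg : Measurable g := by
    refine (measurable_dfc M).comp (hfm.comp ?_)
    have : Continuous (fun q : (Fin n → ℝ) × ℝ =>
        Function.update (cpt q.1 (yt p i j q.2)) i (z i)) := by
      refine Continuous.update ?_ i continuous_const
      exact continuous_cpt.comp (continuous_fst.prodMk ((continuous_yt p i j).comp continuous_snd))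
    exact this.measurable
  have hsl : ∀ t ∈ Icc 0 (r / 2),
      ENNReal.ofReal (2 * π) * ∫⁻ x in closedBall h r, dfc M (f (cpt x (yt p i j t))) ≤
      (∫⁻ x in closedBall h r, ∫⁻ θ in Ioc 0 (2 * π),
        dfc M (f (cpt x (yt p i j t) + circleMap 0 ε θ • (Pi.single i 1 : Fin n → ℂ))))
      + ENNReal.ofReal (C2 * ε / (2 * r)) * ∫⁻ x in closedBall h r,
        (A.indicator (1 : (Fin n → ℝ) × ℝ → ENNReal) (x, t) * g (x, t)) := by
    intro t ht
    exact slice hC2.le HFUB hfm hr h z hε A hA (yt p i j t) t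
      (fun x hx => ptwise HSEG hij hr hr4 hM hf h z hz ε hε hεr A hbad t ht x hx)
  have hmA : Measurable (fun q : (Fin n → ℝ) × ℝ =>
      A.indicator (1 : (Fin n → ℝ) × ℝ → ENNReal) q * g q) := (measurable_one.indicator hA).mul hg
  have hmt : Measurable (fun t : ℝ => ∫⁻ x in closedBall h r,
        (A.indicator (1 : (Fin n → ℝ) × ℝ → ENNReal) (x, t) * g (x, t))) :=
    hmA.lintegral_prod_left'
  have hcs : ∫⁻ t in Icc 0 (r / 2), ∫⁻ x in closedBall h r,
      (A.indicator (1 : (Fin n → ℝ) × ℝ → ENNReal) (x, t) * g (x, t)) ≤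
        (volume A) ^ (1 / 2 : ℝ) * (ENNReal.ofReal (C1 ^ n) * dfc M (f z)) := by
    refine cs h A hA _ (Icc 0 (r / 2)) measurableSet_Icc ?_ g hg ?_
    · rw [Real.volume_Icc]
      rw [← ENNReal.ofReal_one]
      exact ENNReal.ofReal_le_ofReal (by linarith)
    · intro t ht
      have hyk : ∀ k, |yt p i j t k - p k| ≤ r / 2 := yt_sub_le hij p hr hr4 ht
      have h1 := (HIT n (4 * r) M z (yt p i j t) f (tube (ball p (40 * r))) (by linarith)
        (by linarith) hM hfm (isOpen_tube isOpen_ball) hfd (by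
          intro w hw
          show imPart w ∈ ball p (40 * r)
          rw [mem_ball, dist_pi_lt_iff h40]
          intro k
          rw [Real.dist_eq]
          have h2 : ‖w - z‖ ≤ 8 * (4 * r) := by
            rw [← dist_eq_norm]; exact hw
          have h3 : ‖w k - z k‖ ≤ 8 * (4 * r) := (norm_le_pi_norm (w - z) k).trans h2
          have h4 := (Complex.abs_im_le_norm (w k - z k)).trans h3
          rw [Complex.sub_im] at h4
          have h5 := (coord_bounds hz k).2
          have h6 : |(w k).im - p k| ≤ |(w k).im - (z k).im| + |(z k).im - p k| := abs_sub_le _ _ _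
          show |(w k).im - p k| < 40 * r
          linarith) hfb (by
          intro k
          have h5 := (coord_bounds hz k).2
          have h6 : |yt p i j t k - (z k).im| ≤ |yt p i j t k - p k| + |p k - (z k).im| :=
            abs_sub_le _ _ _
          rw [abs_sub_comm (p k)] at h6
          have h7 := hyk k
          linarith)).2 i
      have hsub : closedBall h r ⊆ closedBall (rePart z) (4 * r) := by
        intro x hx
        rw [mem_closedBall, dist_pi_le_iff (by linarith)]
        intro k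
        rw [mem_closedBall, dist_pi_le_iff hr.le] at hx
        have h2 := hx k
        rw [Real.dist_eq] at h2 ⊢
        have h3 := (coord_bounds hz k).1
        have h4 : |x k - (z k).re| ≤ |x k - h k| + |h k - (z k).re| := abs_sub_le _ _ _
        rw [abs_sub_comm (h k)] at h4
        show |x k - (z k).re| ≤ 4 * r
        linarith
      calc ∫⁻ x in closedBall h r, (g (x, t)) ^ 2
          ≤ ∫⁻ x in closedBall (rePart z) (4 * r), (g (x, t)) ^ 2 := lintegral_mono_set hsub
        _ ≤ ENNReal.ofReal (C1 ^ n) * (dfc M (f z)) ^ 2 := h1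
        _ ≤ (ENNReal.ofReal (C1 ^ n)) ^ 2 * (dfc M (f z)) ^ 2 := by
            gcongr
            rw [← ENNReal.ofReal_pow (by positivity)]
            exact ENNReal.ofReal_le_ofReal (by nlinarith)
        _ = (ENNReal.ofReal (C1 ^ n) * dfc M (f z)) ^ 2 := by rw [mul_pow]
  calc ENNReal.ofReal (2 * π) * ∫⁻ t in Icc 0 (r / 2), ∫⁻ x in closedBall h r,
        dfc M (f (cpt x (yt p i j t)))
      = ∫⁻ t in Icc 0 (r / 2), ENNReal.ofReal (2 * π) * ∫⁻ x in closedBall h r,
        dfc M (f (cpt x (yt p i j t))) := (lintegral_const_mul' _ _ ENNReal.ofReal_ne_top).symm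
    _ ≤ ∫⁻ t in Icc 0 (r / 2), ((∫⁻ x in closedBall h r, ∫⁻ θ in Ioc 0 (2 * π),
        dfc M (f (cpt x (yt p i j t) + circleMap 0 ε θ • (Pi.single i 1 : Fin n → ℂ))))
      + ENNReal.ofReal (C2 * ε / (2 * r)) * ∫⁻ x in closedBall h r,
        (A.indicator (1 : (Fin n → ℝ) × ℝ → ENNReal) (x, t) * g (x, t))) :=
        setLIntegral_mono' measurableSet_Icc hsl
    _ = (∫⁻ t in Icc 0 (r / 2), ∫⁻ x in closedBall h r, ∫⁻ θ in Ioc 0 (2 * π),
        dfc M (f (cpt x (yt p i j t) + circleMap 0 ε θ • (Pi.single i 1 : Fin n → ℂ))))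
      + ENNReal.ofReal (C2 * ε / (2 * r)) * ∫⁻ t in Icc 0 (r / 2), ∫⁻ x in closedBall h r,
        (A.indicator (1 : (Fin n → ℝ) × ℝ → ENNReal) (x, t) * g (x, t)) := by
        rw [lintegral_add_right _ (hmt.const_mul _), lintegral_const_mul' _ _ ENNReal.ofReal_ne_top]
    _ ≤ (∫⁻ t in Icc 0 (r / 2), ∫⁻ x in closedBall h r, ∫⁻ θ in Ioc 0 (2 * π),
        dfc M (f (cpt x (yt p i j t) + circleMap 0 ε θ • (Pi.single i 1 : Fin n → ℂ))))
      + ENNReal.ofReal (C2 * ε / (2 * r)) *
        ((volume A) ^ (1 / 2 : ℝ) * (ENNReal.ofReal (C1 ^ n) * dfc M (f z))) := by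
        gcongr
    _ = (∫⁻ t in Icc 0 (r / 2), ∫⁻ x in closedBall h r, ∫⁻ θ in Ioc 0 (2 * π),
        dfc M (f (cpt x (yt p i j t) + circleMap 0 ε θ • (Pi.single i 1 : Fin n → ℂ))))
      + ENNReal.ofReal (C2 * ε / (2 * r) * C1 ^ n) * (volume A) ^ (1 / 2 : ℝ) *
        dfc M (f z) := by
        rw [ENNReal.ofReal_mul (p := C2 * ε / (2 * r)) (by positivity)]
        ring
    _ ≤ _ := by
        gcongr
        have h1 : C2 * ε / (2 * r) * C1 ^ n = (C2 * C1 ^ n * ε / r) / 2 := by
          field_simp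
        rw [h1]
        have h2 : 0 ≤ C2 * C1 ^ n * ε / r := by positivity
        linarith

end Pool.Agent.W579.JS
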